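import Pool.Agent.P.MP_a73859_co.Plan

set_option autoImplicit false

namespace Pool.Agent.P.MP_a73859_co.Eul

open Finset

def prog : Prog 30 :=
  [(29, [24, 26, 27, 28]), (28, [25, 26, 27]), (27, [22, 24]), (26, [23, 25]), (25, [22, 23]),
    (24, [19, 21]), (23, [19, 20]), (22, [20, 21]), (21, [16, 17]), (20, [16, 18]), (19, [17, 18]),
    (18, [13, 15]), (17, [13, 14]), (16, [14, 15]), (15, [11, 14]), (14, [10, 12, 13]), (13, [8, 11,
    12]), (12, [8, 10]), (11, [2, 8, 9, 10]), (10, [6, 8, 9]), (9, [2, 6]), (8, [2, 3, 6, 7]), (7,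
    [3, 5, 6]), (6, [2, 5]), (5, [1, 4]), (4, [0, 1, 3]), (3, [0]), (2, [0, 1]), (1, [0]), (0, [])]

def PZ : List ℤ :=
  [0, 0, 0, 0, 0, 0, 0, 0, 0, 0, 0, 0, 0, 0, 0, 0, 0, 0, 0, 0, 0, 0, 0, 0, 0, 0, 0, 0, 0, 0,
    -40589655464945, 526458957963923, -3378836059472575, 14312142532121629, -45012486645137282,
    112087702376683868, -230076488153950640, 400105173162344269, -601166768255733721,
    791907430789664604, -924787383039109289, 965692137767123411, -907807414626202638,
    772343577442808517, -597169842883415662, 420980994802503217, -271253902316161922,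
    160037867221233879, -86563316878505457, 42954665018864518, -19558569307819570, 8169392833520308,
    -3127766917703326, 1096275991983138, -351126694288899, 102524878223836, -27207685128996,
    6537209927417, -1415388327041, 274535521620, -47359543343, 7200424986, -953782068, 108445457,
    -10376231, 812890, -50093, 2278, -68, 1]

def pts : List (ℤ × ℤ) :=
  [(1545, 1412), (1551, 1409), (1605, 1392), (1497, 1432), (1529, 1417), (1523, 1415), (1522,
    1404), (1491, 1430), (1423, 1468), (1634, 1362), (1454, 1357), (1955, 1296), (1154, 1479), (704,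
    1955), (1034, 1135), (1296, 45), (878, 730), (720, 1242), (45, 704), (459, 936), (501, 798),
    (683, 943), (571, 881), (510, 877), (563, 919), (541, 885), (537, 888), (558, 898), (547, 893),
    (551, 900)]

theorem run_eq : run prog [([], [1])] = [([], PZ)] := by decide +kernel

theorem nodiag : ∀ e ∈ EP prog, e.1 ≠ e.2 := by decide +kernel

theorem nodup : (ES prog).Nodup := by decide +kernel

theorem chk : ∀ a < 30 + 1, ∀ b < a + 1, (sweeps prog 1).foldl (stepE a b) (2 ^ rootN a b) |||
    2 ^ a ||| 2 ^ b ||| 2 ^ 30 = 2 ^ (30 + 1) - 1 := by decide +kernel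

theorem even_deg : ∀ v, Even ((GP prog).degree v) := by decide +kernel

theorem pts_inj : Function.Injective fun v : Fin 30 => pts.getD v (0, 0) := by decide +kernel

theorem pairs : ∀ e ∈ EP prog, ∀ f ∈ EP prog,
    okPair (fun v : Fin 30 => pts.getD v (0, 0)) e f := by decide +kernel

theorem main :
    ∃ (n : ℕ) (G : SimpleGraph (Fin n)) (_ : DecidableRel G.Adj),
      4 ≤ n ∧
      (∀ S : Finset (Fin n), S.card ≤ 2 → (G.induce ((S : Set (Fin n))ᶜ)).Connected) ∧
      (∃ p : Fin n → ℝ × ℝ, Function.Injective p ∧ ∀ u v x y, G.Adj u v → G.Adj x y →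
        s(u, v) ≠ s(x, y) →
          segment ℝ (p u) (p v) ∩ segment ℝ (p x) (p y) ⊆ p '' ({u, v} ∩ {x, y})) ∧
      (∀ v, Even (G.degree v)) ∧
      Odd ((G.edgeFinset.card : ℤ) - (n : ℤ) + 1) ∧
      ∃ q : ℝ, 1 < q ∧ q < 2 ∧
        ∑ A ∈ G.edgeFinset.powerset, (-1 : ℝ) ^ (G.edgeFinset \ A).card *
          q ^ ((A.card : ℤ) - (n : ℤ) +
            (Nat.card (SimpleGraph.fromEdgeSet (A : Set (Sym2 (Fin n)))).ConnectedComponent : ℤ))
          = 0 := by
  have h1 : ev (59 / 30 : ℝ) PZ ≤ 0 := by
    simp only [PZ, ev]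
    norm_num
  have h2 : 0 ≤ ev (79 / 40 : ℝ) PZ := by
    simp only [PZ, ev]
    norm_num
  obtain ⟨q, ha, hb, h0⟩ := root_of_sign PZ (by norm_num) h1 h2
  refine ⟨30, GP prog, decP prog, by norm_num, conn_GP nodiag (by norm_num) 1 chk,
    plane_GP _ pts_inj pairs, even_deg, ?_, q, by linarith, by linarith,
    flow_GP nodiag nodup (by decide +kernel) rfl run_eq (by linarith) h0⟩
  rw [card_GP nodiag nodup]
  decide +kernel

end Pool.Agent.P.MP_a73859_co.Eul
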