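import Mathlib

set_option autoImplicit false

namespace Pool.Agent.P.MP_a73859_co

open Finset

/-- evaluation of an integer coefficient list -/
def ev {R : Type*} [CommRing R] (x : R) : List ℤ → R
  | [] => 0
  | a :: l => (a : R) + x * ev x l

def padd : List ℤ → List ℤ → List ℤ
  | [], k => k
  | a :: l, [] => a :: l
  | a :: l, b :: k => (a + b) :: padd l k

theorem ev_padd {R : Type*} [CommRing R] (x : R) (l k : List ℤ) :
    ev x (padd l k) = ev x l + ev x k := by
  induction l generalizing k with
  | nil => simp [padd, ev]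
  | cons a l ih =>
    cases k with
    | nil => simp [padd, ev]
    | cons b k => simp only [padd, ev, ih]; push_cast; ring

theorem ev_neg {R : Type*} [CommRing R] (x : R) (l : List ℤ) :
    ev x (l.map (fun a => -a)) = - ev x l := by
  induction l with
  | nil => simp [ev]
  | cons a l ih => simp only [List.map_cons, ev, ih]; push_cast; ring

theorem eval_ev (x : ℝ) (l : List ℤ) :
    Polynomial.eval x (ev (Polynomial.X : Polynomial ℝ) l) = ev x l := by
  induction l with
  | nil => simp [ev]
  | cons a l ih => simp [ev, ih]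

variable {n : ℕ} {α : Type}

abbrev Eqs (n : ℕ) := List (Fin n × Fin n)
abbrev Tm (n : ℕ) := Eqs n × List ℤ

def sat (e : Eqs n) (σ : Fin n → α) : Prop := ∀ p ∈ e, σ p.1 = σ p.2

open Classical in
noncomputable def tval (x : ℝ) (t : Tm n) (σ : Fin n → α) : ℝ :=
  if sat t.1 σ then ev x t.2 else 0

noncomputable def val (x : ℝ) (st : List (Tm n)) (σ : Fin n → α) : ℝ :=
  (st.map fun t => tval x t σ).sum

theorem val_nil (x : ℝ) (σ : Fin n → α) : val x ([] : List (Tm n)) σ = 0 := by simp [val]

theorem val_cons (x : ℝ) (t : Tm n) (st : List (Tm n)) (σ : Fin n → α) :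
    val x (t :: st) σ = tval x t σ + val x st σ := by simp [val]

def ins (t : Tm n) : List (Tm n) → List (Tm n)
  | [] => [t]
  | u :: st => if t.1 = u.1 then (u.1, padd t.2 u.2) :: st else u :: ins t st

theorem val_ins (x : ℝ) (t : Tm n) (st : List (Tm n)) (σ : Fin n → α) :
    val x (ins t st) σ = tval x t σ + val x st σ := by
  induction st with
  | nil => simp [ins, val]
  | cons u st ih =>
    unfold ins
    split_ifs with h
    · rw [val_cons, val_cons]
      unfold tval
      rw [h]
      split_ifs
      · simp only [ev_padd]; ring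
      · simp
    · rw [val_cons, val_cons, ih]; ring

def find (e : Eqs n) (i : Fin n) : Fin n :=
  match e with
  | [] => i
  | p :: e => if p.1 = i then p.2 else find e i

theorem find_eq {e : Eqs n} {σ : Fin n → α} (h : sat e σ) (i : Fin n) : σ i = σ (find e i) := by
  induction e with
  | nil => rfl
  | cons p e ih =>
    unfold find
    split_ifs with hp
    · rw [← hp]; exact h p (by simp)
    · exact ih (fun r hr => h r (by simp [hr]))

def insS (p : Fin n × Fin n) : Eqs n → Eqs n
  | [] => [p]
  | r :: e => if p.1 ≤ r.1 then p :: r :: e else r :: insS p e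

theorem mem_insS (p r : Fin n × Fin n) (e : Eqs n) : r ∈ insS p e ↔ r = p ∨ r ∈ e := by
  induction e with
  | nil => simp [insS]
  | cons u e ih =>
    unfold insS
    split_ifs
    · simp
    · simp only [List.mem_cons, ih]; tauto

def relink (hi lo : Fin n) (e : Eqs n) : Eqs n :=
  insS (hi, lo) (e.map fun p => (p.1, if p.2 = hi then lo else p.2))

theorem sat_relink (hi lo : Fin n) (e : Eqs n) (σ : Fin n → α) :
    sat (relink hi lo e) σ ↔ sat e σ ∧ σ hi = σ lo := by
  unfold sat relink
  simp only [mem_insS, List.mem_map]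
  constructor
  · intro h
    have h1 : σ hi = σ lo := h (hi, lo) (Or.inl rfl)
    refine ⟨fun p hp => ?_, h1⟩
    have h2 := h _ (Or.inr ⟨p, hp, rfl⟩)
    by_cases hh : p.2 = hi
    · simp only [hh, if_true] at h2
      rw [h2, hh, h1]
    · simpa [hh] using h2
  · rintro ⟨h1, h2⟩ p (rfl | ⟨r, hr, rfl⟩)
    · exact h2
    · by_cases hh : r.2 = hi
      · simp only [hh, if_true]
        rw [h1 r hr, hh, h2]
      · simpa [hh] using h1 r hr

def merge (e : Eqs n) (i j : Fin n) : Eqs n :=
  if find e i = find e j then e
  else if find e i ≤ find e j then relink (find e j) (find e i) e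
  else relink (find e i) (find e j) e

theorem sat_merge (e : Eqs n) (i j : Fin n) (σ : Fin n → α) :
    sat (merge e i j) σ ↔ sat e σ ∧ σ i = σ j := by
  unfold merge
  split_ifs with h1 h2
  · constructor
    · intro h
      exact ⟨h, by rw [find_eq h i, find_eq h j, h1]⟩
    · exact fun h => h.1
  · rw [sat_relink]
    refine and_congr_right fun h => ?_
    rw [← find_eq h i, ← find_eq h j, eq_comm]
  · rw [sat_relink]
    refine and_congr_right fun h => ?_
    rw [← find_eq h i, ← find_eq h j]

def edgeStep (i j : Fin n) : List (Tm n) → List (Tm n)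
  | [] => []
  | t :: st => ins t (ins (merge t.1 i j, 0 :: t.2.map (fun a => -a)) (edgeStep i j st))

open Classical in
noncomputable def ew (x : ℝ) (σ : Fin n → α) (i j : Fin n) : ℝ :=
  1 - x * (if σ i = σ j then 1 else 0)

theorem val_edgeStep (x : ℝ) (i j : Fin n) (st : List (Tm n)) (σ : Fin n → α) :
    val x (edgeStep i j st) σ = val x st σ * ew x σ i j := by
  induction st with
  | nil => simp [edgeStep, val]
  | cons t st ih =>
    rw [edgeStep, val_ins, val_ins, ih, val_cons]
    unfold tval ew
    by_cases h1 : sat t.1 σ <;> by_cases h2 : σ i = σ j <;>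
      simp [h1, h2, sat_merge, ev, ev_neg]
    ring

def edges (i : Fin n) : List (Fin n) → List (Tm n) → List (Tm n)
  | [], st => st
  | j :: nb, st => edges i nb (edgeStep i j st)

theorem val_edges (x : ℝ) (i : Fin n) (nb : List (Fin n)) (st : List (Tm n)) (σ : Fin n → α) :
    val x (edges i nb st) σ = val x st σ * (nb.map fun j => ew x σ i j).prod := by
  induction nb generalizing st with
  | nil => simp [edges]
  | cons j nb ih => rw [edges, ih, val_edgeStep]; simp [mul_assoc]

def rest (i : Fin n) (e : Eqs n) : Eqs n := e.filter fun p => p.1 ≠ i ∧ p.2 ≠ i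

def partners (i : Fin n) (e : Eqs n) : List (Fin n) :=
  e.filterMap fun p => if p.1 = i then (if p.2 = i then none else some p.2)
    else if p.2 = i then some p.1 else none

theorem sat_update (i : Fin n) (e : Eqs n) (σ : Fin n → α) (a : α) :
    sat e (Function.update σ i a) ↔ sat (rest i e) σ ∧ ∀ y ∈ partners i e, σ y = a := by
  unfold sat rest partners
  simp only [List.mem_filter, List.mem_filterMap, decide_eq_true_eq]
  constructor
  · intro h
    refine ⟨fun p hp => ?_, fun y ⟨p, hp, hy⟩ => ?_⟩
    · have := h p hp.1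
      rwa [Function.update_of_ne hp.2.1, Function.update_of_ne hp.2.2] at this
    · have := h p hp
      by_cases h1 : p.1 = i <;> by_cases h2 : p.2 = i
      · simp [h1, h2] at hy
      · simp only [h1, h2, if_true, if_false, Option.some.injEq] at hy
        rw [h1, Function.update_self, Function.update_of_ne h2] at this
        rw [← hy, this]
      · simp only [h1, h2, if_true, if_false, Option.some.injEq] at hy
        rw [h2, Function.update_self, Function.update_of_ne h1] at this
        rw [← hy, this]
      · simp [h1, h2] at hy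
  · rintro ⟨h1, h2⟩ p hp
    by_cases a1 : p.1 = i <;> by_cases a2 : p.2 = i
    · rw [a1, a2]
    · rw [a1, Function.update_self, Function.update_of_ne a2]
      exact (h2 p.2 ⟨p, hp, by simp [a1, a2]⟩).symm
    · rw [a2, Function.update_self, Function.update_of_ne a1]
      exact h2 p.1 ⟨p, hp, by simp [a1, a2]⟩
    · rw [Function.update_of_ne a1, Function.update_of_ne a2]
      exact h1 p ⟨hp, a1, a2⟩

def elimT (i : Fin n) (t : Tm n) : Tm n :=
  match partners i t.1 with
  | [] => (rest i t.1, 0 :: t.2)
  | y :: ys => (ys.map (fun z => (z, y)) ++ rest i t.1, t.2)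

theorem sum_tval [Fintype α] (i : Fin n) (t : Tm n) (σ : Fin n → α) :
    ∑ a, tval (Fintype.card α : ℝ) t (Function.update σ i a)
      = tval (Fintype.card α : ℝ) (elimT i t) σ := by
  classical
  unfold tval elimT
  simp only [sat_update]
  cases h : partners i t.1 with
  | nil =>
    by_cases h1 : sat (rest i t.1) σ <;> simp [h1, ev]
  | cons y ys =>
    have h2 : sat (ys.map (fun z => (z, y)) ++ rest i t.1) σ ↔
        sat (rest i t.1) σ ∧ ∀ z ∈ ys, σ z = σ y := by
      unfold sat
      simp only [List.mem_append, List.mem_map]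
      constructor
      · intro h
        exact ⟨fun p hp => h p (Or.inr hp), fun z hz => h (z, y) (Or.inl ⟨z, hz, rfl⟩)⟩
      · rintro ⟨h1, h2⟩ p (⟨z, hz, rfl⟩ | hp)
        · exact h2 z hz
        · exact h1 p hp
    simp only [h2]
    rw [sum_eq_single (σ y)]
    · simp
    · intro b _ hb
      rw [if_neg]
      rintro ⟨_, h3⟩
      exact hb (h3 y (by simp)).symm
    · simp

def elim (i : Fin n) : List (Tm n) → List (Tm n)
  | [] => []
  | t :: st => ins (elimT i t) (elim i st)

theorem sum_val [Fintype α] (i : Fin n) (st : List (Tm n)) (σ : Fin n → α) :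
    ∑ a, val (Fintype.card α : ℝ) st (Function.update σ i a)
      = val (Fintype.card α : ℝ) (elim i st) σ := by
  induction st with
  | nil => simp [elim, val]
  | cons t st ih =>
    simp only [val_cons, sum_add_distrib, elim, val_ins, ih, sum_tval]

theorem sum_update [Fintype α] [DecidableEq α] (i : Fin n) (f : (Fin n → α) → ℝ) :
    ∑ σ : Fin n → α, ∑ a, f (Function.update σ i a) = Fintype.card α * ∑ σ, f σ := by
  have h : ∑ p : (Fin n → α) × α, f (Function.update p.1 i p.2)
      = ∑ p : (Fin n → α) × α, f p.1 := by
    let φ : (Fin n → α) × α → (Fin n → α) × α := fun p => (Function.update p.1 i p.2, p.1 i)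
    have hφ : Function.Involutive φ := by
      rintro ⟨σ, a⟩
      simp [φ]
    exact Fintype.sum_equiv hφ.toPerm _ _ (fun p => rfl)
  rw [Fintype.sum_prod_type, Fintype.sum_prod_type] at h
  rw [h, mul_sum]
  simp

abbrev Prog (n : ℕ) := List (Fin n × List (Fin n))

def run : Prog n → List (Tm n) → List (Tm n)
  | [], st => st
  | p :: pr, st => run pr (elim p.1 (edges p.1 p.2 st))

def okProg : Prog n → Bool
  | [] => true
  | p :: pr => (pr.all fun r => decide (r.1 ≠ p.1) && r.2.all fun j => decide (j ≠ p.1)) && okProg pr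

noncomputable def W (x : ℝ) (pr : Prog n) (σ : Fin n → α) : ℝ :=
  (pr.map fun p => (p.2.map fun j => ew x σ p.1 j).prod).prod

theorem W_update (x : ℝ) (pr : Prog n) (σ : Fin n → α) (i : Fin n) (a : α)
    (h : ∀ r ∈ pr, r.1 ≠ i ∧ ∀ j ∈ r.2, j ≠ i) : W x pr (Function.update σ i a) = W x pr σ := by
  unfold W
  congr 1
  refine List.map_congr_left fun r hr => ?_
  congr 1
  refine List.map_congr_left fun j hj => ?_
  unfold ew
  rw [Function.update_of_ne (h r hr).1, Function.update_of_ne ((h r hr).2 j hj)]

theorem sum_run [Fintype α] [DecidableEq α] (pr : Prog n) (hok : okProg pr = true)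
    (st : List (Tm n)) :
    ∑ σ : Fin n → α, val (Fintype.card α : ℝ) (run pr st) σ
      = (Fintype.card α : ℝ) ^ pr.length *
        ∑ σ : Fin n → α, val (Fintype.card α : ℝ) st σ * W (Fintype.card α : ℝ) pr σ := by
  induction pr generalizing st with
  | nil => simp [run, W]
  | cons p pr ih =>
    simp only [okProg, Bool.and_eq_true, List.all_eq_true, decide_eq_true_eq] at hok
    rw [run, ih hok.2, List.length_cons, pow_succ, mul_assoc]
    congr 1
    rw [← sum_update p.1]
    refine sum_congr rfl fun σ _ => ?_
    rw [← sum_val, sum_mul]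
    refine sum_congr rfl fun a _ => ?_
    rw [val_edges, ← W_update _ pr σ p.1 a hok.1]
    simp [W, mul_assoc]

theorem potts_eq [Fintype α] [DecidableEq α] [Nonempty α] (pr : Prog n) (hok : okProg pr = true)
    (hlen : pr.length = n) (P : List ℤ) (hrun : run pr [([], [1])] = [([], P)]) :
    ∑ σ : Fin n → α, W (Fintype.card α : ℝ) pr σ = ev (Fintype.card α : ℝ) P := by
  have h := sum_run (α := α) pr hok [([], [1])]
  rw [hrun, hlen] at h
  have h0 : (Fintype.card α : ℝ) ^ n ≠ 0 := by
    have : 0 < Fintype.card α := Fintype.card_pos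
    positivity
  simp only [val, tval, sat, List.map_cons, List.map_nil, List.not_mem_nil, false_imp_iff,
    implies_true, if_true, List.sum_cons, List.sum_nil, add_zero, ev, mul_zero, Int.cast_one,
    one_mul, sum_const, card_univ, Fintype.card_pi, Fintype.card_fin, prod_const,
    nsmul_eq_mul, Nat.cast_pow] at h
  exact (mul_left_cancel₀ h0 h).symm

end Pool.Agent.P.MP_a73859_co
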