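import Mathlib
import Pool.Agent.P.MP_a73859_co.Potts

set_option autoImplicit false

namespace Pool.Agent.P.MP_a73859_co

open Finset

/-- colourings constant along the edges of `A` correspond to colourings of the components -/
theorem card_const {V α : Type} [Fintype V] [DecidableEq V] [Fintype α] [DecidableEq α]
    (A : Finset (Sym2 V)) :
    (univ.filter fun σ : V → α => ∀ e ∈ A, (e.map σ).IsDiag).card
      = Fintype.card α ^ Nat.card (SimpleGraph.fromEdgeSet (A : Set (Sym2 V))).ConnectedComponent := by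
  classical
  set H := SimpleGraph.fromEdgeSet (A : Set (Sym2 V)) with hH
  have e1 : (H.ConnectedComponent → α) ≃ {σ : V → α // ∀ e ∈ A, (e.map σ).IsDiag} := by
    refine Equiv.ofBijective (fun τ => ⟨fun v => τ (H.connectedComponentMk v), ?_⟩) ⟨?_, ?_⟩
    · intro e he
      induction e using Sym2.ind with
      | _ a b =>
        simp only [Sym2.map_mk, Sym2.mk_isDiag_iff]
        by_cases hab : a = b
        · rw [hab]
        · have : H.Adj a b := by
            rw [hH, SimpleGraph.fromEdgeSet_adj]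
            exact ⟨by simpa using he, hab⟩
          rw [SimpleGraph.ConnectedComponent.connectedComponentMk_eq_of_adj this]
    · intro τ τ' h
      funext c
      induction c using SimpleGraph.ConnectedComponent.ind with
      | _ v => exact congrFun (congrArg Subtype.val h) v
    · rintro ⟨σ, hσ⟩
      have hw : ∀ v w (p : H.Walk v w), σ v = σ w := by
        intro v w p
        induction p with
        | nil => rfl
        | cons h _ ih =>
          rw [← ih]
          rw [hH, SimpleGraph.fromEdgeSet_adj] at h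
          have h5 := hσ _ (by simpa using h.1)
          rwa [Sym2.map_mk, Sym2.mk_isDiag_iff] at h5
      exact ⟨SimpleGraph.ConnectedComponent.lift σ (fun v w p _ => hw v w p), rfl⟩
  rw [← Fintype.card_subtype, ← Fintype.card_congr e1, Fintype.card_fun, Nat.card_eq_fintype_card]

theorem fk_potts {V α : Type} [Fintype V] [DecidableEq V] [Fintype α] [DecidableEq α]
    (E : Finset (Sym2 V)) (v : ℝ) :
    ∑ A ∈ E.powerset, v ^ A.card * (Fintype.card α : ℝ) ^
        Nat.card (SimpleGraph.fromEdgeSet (A : Set (Sym2 V))).ConnectedComponent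
      = ∑ σ : V → α, ∏ e ∈ E, (1 + v * (if (e.map σ).IsDiag then 1 else 0)) := by
  simp only [prod_one_add]
  rw [sum_comm]
  refine sum_congr rfl fun A _ => ?_
  simp only [prod_mul_distrib, prod_const, prod_boole]
  rw [← mul_sum]
  congr 1
  have h := card_const (α := α) A
  rw [← Nat.cast_pow, ← h, card_filter]
  push_cast
  refine sum_congr rfl fun σ _ => ?_
  congr

def prog : Prog 11 :=
  [(10, [3, 4, 8, 9]), (9, [3, 4, 8]), (8, [3, 7]), (7, [0, 4, 5, 6]), (6, [0, 3, 5]),
    (5, [0, 3]), (4, [0, 1, 2]), (3, [1, 2]), (2, [0, 1]), (1, [0]), (0, [])]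

def EL : List (Sym2 (Fin 11)) := prog.flatMap fun p => p.2.map fun j => s(p.1, j)

def G : SimpleGraph (Fin 11) := SimpleGraph.fromEdgeSet {e | e ∈ EL}

instance decG : DecidableRel G.Adj :=
  fun a b => decidable_of_iff (s(a, b) ∈ EL ∧ a ≠ b) (by simp [G])

def PZ : List ℤ :=
  [0, 0, 0, 0, 0, 0, 0, 0, 0, 0, 0, 96198, -571677, 1641465, -3048654, 4115972, -4286850,
    3558616, -2396228, 1319117, -594028, 217558, -63984, 14788, -2593, 325, -26, 1]

theorem run_eq : run prog [([], [1])] = [([], PZ)] := by decide +kernel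

theorem EL_nodup : EL.Nodup := by decide +kernel

theorem EL_nodiag : ∀ e ∈ EL, ¬ e.IsDiag := by decide +kernel

theorem edgeFinset_eq : G.edgeFinset = EL.toFinset := by
  ext e
  rw [SimpleGraph.mem_edgeFinset, List.mem_toFinset]
  unfold G
  rw [SimpleGraph.edgeSet_fromEdgeSet]
  constructor
  · exact fun h => h.1
  · exact fun h => ⟨h, by simpa using EL_nodiag e h⟩

theorem prod_eq_W {α : Type} [DecidableEq α] (x : ℝ) (σ : Fin 11 → α) :
    ∏ e ∈ G.edgeFinset, (1 + (-x) * (if (e.map σ).IsDiag then (1 : ℝ) else 0)) = W x prog σ := by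
  rw [edgeFinset_eq, List.prod_toFinset _ EL_nodup]
  unfold EL W
  rw [List.map_flatMap, List.flatMap_def, List.prod_flatten, List.map_map]
  congr 1
  refine List.map_congr_left fun p _ => ?_
  simp only [Function.comp, List.map_map]
  congr 1
  refine List.map_congr_left fun j _ => ?_
  unfold ew
  by_cases h : σ p.1 = σ j <;> simp [h, sub_eq_add_neg]

noncomputable def cc (A : Finset (Sym2 (Fin 11))) : ℕ :=
  Nat.card (SimpleGraph.fromEdgeSet (A : Set (Sym2 (Fin 11)))).ConnectedComponent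

theorem fk_nat (q : ℕ) (hq : 0 < q) :
    ∑ A ∈ G.edgeFinset.powerset, (-(q : ℝ)) ^ A.card * (q : ℝ) ^ cc A = ev (q : ℝ) PZ := by
  have : Nonempty (Fin q) := ⟨⟨0, hq⟩⟩
  have h1 := fk_potts (α := Fin q) G.edgeFinset (-(q : ℝ))
  have h2 := potts_eq (α := Fin q) prog (by decide +kernel) rfl PZ run_eq
  rw [Fintype.card_fin] at h1 h2
  simp only [prod_eq_W] at h1
  rw [← h2, ← h1]
  rfl

theorem fk_real (x : ℝ) :
    ∑ A ∈ G.edgeFinset.powerset, (-x) ^ A.card * x ^ cc A = ev x PZ := by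
  set p1 : Polynomial ℝ :=
    ∑ A ∈ G.edgeFinset.powerset, (-Polynomial.X) ^ A.card * Polynomial.X ^ cc A with hp1
  have h1 : ∀ y : ℝ, p1.eval y = ∑ A ∈ G.edgeFinset.powerset, (-y) ^ A.card * y ^ cc A := by
    intro y
    simp [hp1, Polynomial.eval_finsetSum]
  have h2 : p1 = ev Polynomial.X PZ := by
    apply Polynomial.eq_of_infinite_eval_eq
    refine Set.infinite_of_injective_forall_mem (f := fun k : ℕ => ((k + 1 : ℕ) : ℝ)) ?_ ?_
    · intro a b hab
      have : a + 1 = b + 1 := Nat.cast_injective (R := ℝ) hab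
      omega
    · intro k
      show Polynomial.eval _ _ = Polynomial.eval _ _
      rw [h1, eval_ev, fk_nat (k + 1) (by omega)]
  rw [← h1, h2, eval_ev]

theorem exists_root : ∃ q : ℝ, 1 < q ∧ q < 2 ∧ ev q PZ = 0 := by
  have hc : Continuous fun x : ℝ => ev x PZ := by
    have : (fun x : ℝ => ev x PZ) = fun x => Polynomial.eval x (ev Polynomial.X PZ) := by
      funext x; rw [eval_ev]
    rw [this]
    exact Polynomial.continuous _
  have h1 : ev (3 / 2 : ℝ) PZ ≤ 0 := by
    simp only [PZ, ev]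
    norm_num
  have h2 : 0 ≤ ev (79 / 40 : ℝ) PZ := by
    simp only [PZ, ev]
    norm_num
  obtain ⟨q, hq, h0⟩ := intermediate_value_Icc (by norm_num : (3 / 2 : ℝ) ≤ 79 / 40)
    hc.continuousOn ⟨h1, h2⟩
  exact ⟨q, by linarith [hq.1], by linarith [hq.2], h0⟩

def nb : Fin 11 → List (Fin 11) :=
  ![[1, 2, 4, 5, 6, 7], [0, 2, 3, 4], [0, 1, 3, 4], [1, 2, 5, 6, 8, 9, 10], [0, 1, 2, 7, 9, 10],
    [0, 3, 6, 7], [0, 3, 5, 7], [0, 4, 5, 6, 8], [3, 7, 9, 10], [3, 4, 8, 10], [3, 4, 8, 9]]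

theorem nb_adj : ∀ a, ∀ b ∈ nb a, G.Adj a b := by decide +kernel

def sweep (a b : ℕ) : List (Fin 11) → List (Fin 11) → List (Fin 11)
  | [], R => R
  | v :: l, R =>
    if v.val ≠ a ∧ v.val ≠ b ∧ v ∉ R ∧ ∃ u ∈ nb v, u ∈ R then sweep a b l (v :: R)
    else sweep a b l R

def root (a b : ℕ) : Fin 11 := if 0 ≠ a ∧ 0 ≠ b then 0 else if 1 ≠ a ∧ 1 ≠ b then 1 else 2

def order : List (Fin 11) :=
  List.finRange 11 ++ List.finRange 11 ++ List.finRange 11 ++ List.finRange 11

theorem chk : ∀ a < 12, ∀ b < 12, ((root a b).val ≠ a ∧ (root a b).val ≠ b) ∧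
    ∀ v : Fin 11, v.val = a ∨ v.val = b ∨ v ∈ sweep a b order [root a b] := by
  decide +kernel

theorem sweep_reach (a b : ℕ) (S : Finset (Fin 11)) (hS : ∀ v, v ∈ S ↔ v.val = a ∨ v.val = b)
    (r : ((S : Set (Fin 11))ᶜ : Set (Fin 11))) (l R : List (Fin 11))
    (hR : ∀ v ∈ R, ∃ h : v ∈ ((S : Set (Fin 11))ᶜ : Set (Fin 11)),
      (G.induce ((S : Set (Fin 11))ᶜ)).Reachable r ⟨v, h⟩) :
    ∀ v ∈ sweep a b l R, ∃ h : v ∈ ((S : Set (Fin 11))ᶜ : Set (Fin 11)),
      (G.induce ((S : Set (Fin 11))ᶜ)).Reachable r ⟨v, h⟩ := by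
  induction l generalizing R with
  | nil => exact hR
  | cons w l ih =>
    unfold sweep
    split_ifs with h
    · apply ih
      intro v hv
      rcases List.mem_cons.1 hv with rfl | hv
      · obtain ⟨h1, h2, _, u, hu, huR⟩ := h
        obtain ⟨hu', hr⟩ := hR u huR
        have hv' : v ∈ ((S : Set (Fin 11))ᶜ : Set (Fin 11)) := by
          simp [hS, h1, h2]
        refine ⟨hv', hr.trans (SimpleGraph.Adj.reachable ?_)⟩
        exact (nb_adj v u hu).symm
      · exact hR v hv
    · exact ih R hR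

theorem three_conn (S : Finset (Fin 11)) (hc : S.card ≤ 2) :
    (G.induce ((S : Set (Fin 11))ᶜ)).Connected := by
  obtain ⟨a, ha, b, hb, hS⟩ : ∃ a < 12, ∃ b < 12, ∀ v, v ∈ S ↔ v.val = a ∨ v.val = b := by
    have : S.card = 0 ∨ S.card = 1 ∨ S.card = 2 := by omega
    rcases this with h | h | h
    · rw [card_eq_zero] at h
      refine ⟨11, by norm_num, 11, by norm_num, fun v => ?_⟩
      have := v.2
      simp [h]; omega
    · obtain ⟨x, rfl⟩ := card_eq_one.1 h
      refine ⟨x.val, by omega, x.val, by omega, fun v => ?_⟩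
      simp [Fin.ext_iff]
    · obtain ⟨x, y, _, rfl⟩ := card_eq_two.1 h
      refine ⟨x.val, by omega, y.val, by omega, fun v => ?_⟩
      simp [Fin.ext_iff]
  obtain ⟨h1, h2⟩ := chk a ha b hb
  have hr : root a b ∈ ((S : Set (Fin 11))ᶜ : Set (Fin 11)) := by
    simp [hS, h1.1, h1.2]
  have h3 := sweep_reach a b S hS ⟨root a b, hr⟩ order [root a b] (by
    intro v hv
    rw [List.mem_singleton] at hv
    subst hv
    exact ⟨hr, SimpleGraph.Reachable.refl _⟩)
  rw [SimpleGraph.connected_iff_exists_forall_reachable]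
  refine ⟨⟨root a b, hr⟩, fun w => ?_⟩
  have hw : ¬ (w.1.val = a ∨ w.1.val = b) := by
    rw [← hS]
    exact w.2
  rcases h2 w.1 with h | h | h
  · exact absurd (Or.inl h) hw
  · exact absurd (Or.inr h) hw
  · exact (h3 w.1 h).2

theorem odd_deg : Odd (G.degree 3) := by decide +kernel

theorem main :
    ∃ (n : ℕ) (G : SimpleGraph (Fin n)) (_ : DecidableRel G.Adj),
      4 ≤ n ∧
      (∀ S : Finset (Fin n), S.card ≤ 2 → (G.induce ((S : Set (Fin n))ᶜ)).Connected) ∧
      (∃ v, Odd (G.degree v)) ∧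
      ∃ q : ℝ, 1 < q ∧ q < 2 ∧
        ∑ A ∈ G.edgeFinset.powerset, (-1 : ℝ) ^ (G.edgeFinset \ A).card *
          q ^ ((A.card : ℤ) - (n : ℤ) +
            (Nat.card (SimpleGraph.fromEdgeSet (A : Set (Sym2 (Fin n)))).ConnectedComponent : ℤ))
          = 0 := by
  obtain ⟨q, h1, h2, h0⟩ := exists_root
  refine ⟨11, G, decG, by norm_num, three_conn, ⟨3, odd_deg⟩, q, h1, h2, ?_⟩
  have hq : q ≠ 0 := by linarith
  rw [← fk_real] at h0
  have h3 : ∀ A ∈ G.edgeFinset.powerset, (-1 : ℝ) ^ (G.edgeFinset \ A).card *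
      q ^ ((A.card : ℤ) - ((11 : ℕ) : ℤ) + (cc A : ℤ))
      = ((-1) ^ G.edgeFinset.card * (q ^ 11)⁻¹) * ((-q) ^ A.card * q ^ cc A) := by
    intro A hA
    have h4 := card_sdiff_add_card_eq_card (mem_powerset.1 hA)
    rw [← h4, zpow_add₀ hq, zpow_sub₀ hq, zpow_natCast, zpow_natCast, zpow_natCast, pow_add,
      neg_pow q]
    have h5 : ((-1 : ℝ) ^ A.card) * (-1) ^ A.card = 1 := by
      rw [← mul_pow]; simp
    field_simp
    linear_combination (-1 : ℝ) * h5
  unfold cc at h3
  rw [sum_congr rfl h3, ← mul_sum]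
  unfold cc at h0
  rw [h0, mul_zero]

end Pool.Agent.P.MP_a73859_co
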