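import Pool.Agent.P.MP_a73859_co.Main

set_option autoImplicit false

namespace Pool.Agent.P.MP_a73859_co

open Finset

variable {n : ℕ}

/-- The edges of a programme as ordered pairs. -/
def EP (pr : Prog n) : List (Fin n × Fin n) := pr.flatMap fun p => p.2.map fun j => (p.1, j)

def ES (pr : Prog n) : List (Sym2 (Fin n)) := (EP pr).map fun e => s(e.1, e.2)

def GP (pr : Prog n) : SimpleGraph (Fin n) := SimpleGraph.fromEdgeSet {e | e ∈ ES pr}

theorem GP_adj (pr : Prog n) (a b : Fin n) :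
    (GP pr).Adj a b ↔ ((a, b) ∈ EP pr ∨ (b, a) ∈ EP pr) ∧ a ≠ b := by
  rw [GP, SimpleGraph.fromEdgeSet_adj]
  refine and_congr_left fun _ => ?_
  simp only [ES, Set.mem_ofPred_eq, List.mem_map, Sym2.eq_iff]
  constructor
  · rintro ⟨e, he, ⟨rfl, rfl⟩ | ⟨rfl, rfl⟩⟩
    · exact Or.inl he
    · exact Or.inr he
  · rintro (h | h)
    · exact ⟨_, h, Or.inl ⟨rfl, rfl⟩⟩
    · exact ⟨_, h, Or.inr ⟨rfl, rfl⟩⟩

instance decP (pr : Prog n) : DecidableRel (GP pr).Adj :=
  fun a b => decidable_of_iff _ (GP_adj pr a b).symm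

theorem edgeFinset_GP {pr : Prog n} (hd : ∀ e ∈ EP pr, e.1 ≠ e.2) :
    (GP pr).edgeFinset = (ES pr).toFinset := by
  ext e
  rw [SimpleGraph.mem_edgeFinset, List.mem_toFinset, GP, SimpleGraph.edgeSet_fromEdgeSet]
  refine ⟨fun h => h.1, fun h => ⟨h, ?_⟩⟩
  obtain ⟨f, hf, rfl⟩ := List.mem_map.1 h
  simpa using hd f hf

section flow

variable {pr : Prog n} (hd : ∀ e ∈ EP pr, e.1 ≠ e.2) (hn : (ES pr).Nodup)
include hd hn

theorem card_GP : (GP pr).edgeFinset.card = (EP pr).length := by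
  rw [edgeFinset_GP hd, List.toFinset_card_of_nodup hn, ES, List.length_map]

theorem prod_GP {α : Type} [DecidableEq α] (x : ℝ) (σ : Fin n → α) :
    ∏ e ∈ (GP pr).edgeFinset, (1 + (-x) * (if (e.map σ).IsDiag then (1 : ℝ) else 0)) =
      W x pr σ := by
  rw [edgeFinset_GP hd, List.prod_toFinset _ hn]
  unfold ES EP W
  rw [List.map_map, List.map_flatMap, List.flatMap_def, List.prod_flatten, List.map_map]
  congr 1
  refine List.map_congr_left fun p _ => ?_
  simp only [Function.comp, List.map_map]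
  congr 1
  refine List.map_congr_left fun j _ => ?_
  unfold ew
  by_cases h : σ p.1 = σ j <;> simp [h, sub_eq_add_neg]

variable (hok : okProg pr = true) (hlen : pr.length = n) {P : List ℤ}
  (hrun : run pr [([], [1])] = [([], P)])
include hok hlen hrun

theorem fk_GP (x : ℝ) :
    ∑ A ∈ (GP pr).edgeFinset.powerset, (-x) ^ A.card * x ^
      Nat.card (SimpleGraph.fromEdgeSet (A : Set (Sym2 (Fin n)))).ConnectedComponent = ev x P := by
  set p1 : Polynomial ℝ := ∑ A ∈ (GP pr).edgeFinset.powerset, (-Polynomial.X) ^ A.card *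
    Polynomial.X ^ Nat.card (SimpleGraph.fromEdgeSet (A : Set (Sym2 (Fin n)))).ConnectedComponent
    with hp1
  have h1 : ∀ y : ℝ, p1.eval y = ∑ A ∈ (GP pr).edgeFinset.powerset, (-y) ^ A.card * y ^
      Nat.card (SimpleGraph.fromEdgeSet (A : Set (Sym2 (Fin n)))).ConnectedComponent := by
    intro y
    simp [hp1, Polynomial.eval_finsetSum]
  have h2 : p1 = ev Polynomial.X P := by
    apply Polynomial.eq_of_infinite_eval_eq
    refine Set.infinite_of_injective_forall_mem (f := fun k : ℕ => ((k + 1 : ℕ) : ℝ)) ?_ ?_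
    · intro a b hab
      have : a + 1 = b + 1 := Nat.cast_injective (R := ℝ) hab
      omega
    · intro k
      show Polynomial.eval _ _ = Polynomial.eval _ _
      have h3 := fk_potts (α := Fin (k + 1)) (GP pr).edgeFinset (-((k + 1 : ℕ) : ℝ))
      have h4 := potts_eq (α := Fin (k + 1)) pr hok hlen P hrun
      rw [Fintype.card_fin] at h3 h4
      simp only [prod_GP hd hn] at h3
      rw [h1, eval_ev, ← h4, ← h3]
  rw [← h1, h2, eval_ev]

theorem flow_GP {q : ℝ} (hq : q ≠ 0) (h0 : ev q P = 0) :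
    ∑ A ∈ (GP pr).edgeFinset.powerset, (-1 : ℝ) ^ ((GP pr).edgeFinset \ A).card *
      q ^ ((A.card : ℤ) - (n : ℤ) +
        (Nat.card (SimpleGraph.fromEdgeSet (A : Set (Sym2 (Fin n)))).ConnectedComponent : ℤ))
      = 0 := by
  rw [← fk_GP hd hn hok hlen hrun] at h0
  have h3 : ∀ A ∈ (GP pr).edgeFinset.powerset, ∀ c : ℕ,
      (-1 : ℝ) ^ ((GP pr).edgeFinset \ A).card * q ^ ((A.card : ℤ) - (n : ℤ) + (c : ℤ))
      = ((-1) ^ (GP pr).edgeFinset.card * (q ^ n)⁻¹) * ((-q) ^ A.card * q ^ c) := by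
    intro A hA c
    have h4 := card_sdiff_add_card_eq_card (mem_powerset.1 hA)
    rw [← h4, zpow_add₀ hq, zpow_sub₀ hq, zpow_natCast, zpow_natCast, zpow_natCast, pow_add,
      neg_pow q]
    have h5 : ((-1 : ℝ) ^ A.card) * (-1) ^ A.card = 1 := by
      rw [← mul_pow]; simp
    field_simp
    linear_combination (-1 : ℝ) * h5
  rw [sum_congr rfl fun A hA => h3 A hA _, ← mul_sum, h0, mul_zero]

end flow

theorem root_of_sign (P : List ℤ) {a b : ℝ} (hab : a ≤ b) (ha : ev a P ≤ 0) (hb : 0 ≤ ev b P) :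
    ∃ q : ℝ, a ≤ q ∧ q ≤ b ∧ ev q P = 0 := by
  have hc : Continuous fun x : ℝ => ev x P := by
    have : (fun x : ℝ => ev x P) = fun x => Polynomial.eval x (ev Polynomial.X P) := by
      funext x; rw [eval_ev]
    rw [this]
    exact Polynomial.continuous _
  obtain ⟨q, hq, h0⟩ := intermediate_value_Icc hab hc.continuousOn ⟨ha, hb⟩
  exact ⟨q, hq.1, hq.2, h0⟩

section conn

/-- One step of the search that avoids `a` and `b`; reached vertices are the bits of `R`. -/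
def stepE (a b R : ℕ) (e : Fin n × Fin n) : ℕ :=
  if e.1.val ≠ a ∧ e.1.val ≠ b ∧ e.2.val ≠ a ∧ e.2.val ≠ b ∧
    (R.testBit e.1 = true ∨ R.testBit e.2 = true) then R ||| 2 ^ e.1.val ||| 2 ^ e.2.val else R

def rootN (a b : ℕ) : ℕ := if 0 ≠ a ∧ 0 ≠ b then 0 else if 1 ≠ a ∧ 1 ≠ b then 1 else 2

def sweeps (pr : Prog n) (k : ℕ) : List (Fin n × Fin n) :=
  (List.replicate k ((EP pr).reverse ++ EP pr)).flatten

theorem mem_sweeps {pr : Prog n} {k : ℕ} {e : Fin n × Fin n} (h : e ∈ sweeps pr k) :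
    e ∈ EP pr := by
  obtain ⟨l, hl, he⟩ := List.mem_flatten.1 h
  rw [List.eq_of_mem_replicate hl] at he
  simpa using he

theorem fold_reach {pr : Prog n} (hd : ∀ e ∈ EP pr, e.1 ≠ e.2) (a b : ℕ) (S : Finset (Fin n))
    (hS : ∀ v, v ∈ S ↔ v.val = a ∨ v.val = b) (r : ((S : Set (Fin n))ᶜ : Set (Fin n)))
    (l : List (Fin n × Fin n)) (hl : ∀ e ∈ l, e ∈ EP pr) (R : ℕ)
    (hR : ∀ v : Fin n, R.testBit v = true → ∃ h : v ∈ ((S : Set (Fin n))ᶜ : Set (Fin n)),
      ((GP pr).induce ((S : Set (Fin n))ᶜ)).Reachable r ⟨v, h⟩) :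
    ∀ v : Fin n, (l.foldl (stepE a b) R).testBit v = true →
      ∃ h : v ∈ ((S : Set (Fin n))ᶜ : Set (Fin n)),
        ((GP pr).induce ((S : Set (Fin n))ᶜ)).Reachable r ⟨v, h⟩ := by
  induction l generalizing R with
  | nil => exact hR
  | cons e l ih =>
    refine ih (fun f hf => hl f (List.mem_cons_of_mem _ hf)) _ ?_
    unfold stepE
    split_ifs with h
    · obtain ⟨h1, h2, h3, h4, h5⟩ := h
      have he := hl e List.mem_cons_self
      have m1 : e.1 ∈ ((S : Set (Fin n))ᶜ : Set (Fin n)) := by simp [hS, h1, h2]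
      have m2 : e.2 ∈ ((S : Set (Fin n))ᶜ : Set (Fin n)) := by simp [hS, h3, h4]
      have ha : ((GP pr).induce ((S : Set (Fin n))ᶜ)).Adj ⟨e.1, m1⟩ ⟨e.2, m2⟩ :=
        (GP_adj pr _ _).2 ⟨Or.inl he, hd e he⟩
      have hb : ((GP pr).induce ((S : Set (Fin n))ᶜ)).Reachable r ⟨e.1, m1⟩ ∧
          ((GP pr).induce ((S : Set (Fin n))ᶜ)).Reachable r ⟨e.2, m2⟩ := by
        rcases h5 with h5 | h5
        · obtain ⟨_, h6⟩ := hR _ h5
          exact ⟨h6, h6.trans ha.reachable⟩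
        · obtain ⟨_, h6⟩ := hR _ h5
          exact ⟨h6.trans ha.symm.reachable, h6⟩
      intro v hv
      simp only [Nat.testBit_or, Nat.testBit_two_pow, Bool.or_eq_true, decide_eq_true_eq] at hv
      rcases hv with (hv | hv) | hv
      · exact hR v hv
      · obtain rfl := Fin.ext hv
        exact ⟨m1, hb.1⟩
      · obtain rfl := Fin.ext hv
        exact ⟨m2, hb.2⟩
    · exact hR

theorem conn_GP {pr : Prog n} (hd : ∀ e ∈ EP pr, e.1 ≠ e.2) (h3 : 3 ≤ n) (k : ℕ)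
    (hk : ∀ a < n + 1, ∀ b < a + 1, (sweeps pr k).foldl (stepE a b) (2 ^ rootN a b) ||| 2 ^ a |||
      2 ^ b ||| 2 ^ n = 2 ^ (n + 1) - 1) (S : Finset (Fin n)) (hc : S.card ≤ 2) :
    ((GP pr).induce ((S : Set (Fin n))ᶜ)).Connected := by
  obtain ⟨a, ha, b, hb, hS⟩ : ∃ a < n + 1, ∃ b < a + 1, ∀ v, v ∈ S ↔ v.val = a ∨ v.val = b := by
    have : S.card = 0 ∨ S.card = 1 ∨ S.card = 2 := by omega
    rcases this with h | h | h
    · rw [card_eq_zero] at h
      refine ⟨n, by omega, n, by omega, fun v => ?_⟩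
      have := v.2
      simp [h]; omega
    · obtain ⟨x, rfl⟩ := card_eq_one.1 h
      refine ⟨x.val, by omega, x.val, by omega, fun v => ?_⟩
      simp [Fin.ext_iff]
    · obtain ⟨x, y, _, rfl⟩ := card_eq_two.1 h
      rcases le_total x.val y.val with hxy | hxy
      · refine ⟨y.val, by omega, x.val, by omega, fun v => ?_⟩
        simp [Fin.ext_iff, or_comm]
      · refine ⟨x.val, by omega, y.val, by omega, fun v => ?_⟩
        simp [Fin.ext_iff]
  have h1 : rootN a b < n ∧ rootN a b ≠ a ∧ rootN a b ≠ b := by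
    unfold rootN
    split_ifs <;> omega
  have hr : (⟨rootN a b, h1.1⟩ : Fin n) ∈ ((S : Set (Fin n))ᶜ : Set (Fin n)) := by
    simp [hS, h1.2.1, h1.2.2]
  have h4 := fold_reach hd a b S hS ⟨_, hr⟩ (sweeps pr k) (fun _ => mem_sweeps) (2 ^ rootN a b) (by
    intro v hv
    rw [Nat.testBit_two_pow, decide_eq_true_eq] at hv
    obtain rfl : (⟨rootN a b, h1.1⟩ : Fin n) = v := Fin.ext hv
    exact ⟨hr, SimpleGraph.Reachable.refl _⟩)
  rw [SimpleGraph.connected_iff_exists_forall_reachable]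
  refine ⟨⟨_, hr⟩, fun w => ?_⟩
  have hw : ¬ (w.1.val = a ∨ w.1.val = b) := by
    rw [← hS]
    exact w.2
  have h5 := congrArg (fun x => x.testBit w.1) (hk a ha b hb)
  have h6 := w.1.2
  simp only [Nat.testBit_or, Nat.testBit_two_pow, Nat.testBit_two_pow_sub_one,
    show w.1.val < n + 1 by omega, show a ≠ w.1.val by omega, show b ≠ w.1.val by omega,
    show n ≠ w.1.val by omega, decide_true, decide_false, Bool.or_false] at h5
  exact (h4 w.1 h5).2

end conn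

section plane

def dt {R : Type} [CommRing R] (p q r : R × R) : R :=
  (q.1 - p.1) * (r.2 - p.2) - (q.2 - p.2) * (r.1 - p.1)

theorem dt_seg {c d a b z : ℝ × ℝ} (h : z ∈ segment ℝ a b) (h' : z ∈ segment ℝ c d) :
    ∃ s t : ℝ, 0 ≤ s ∧ 0 ≤ t ∧ s + t = 1 ∧ z = s • a + t • b ∧ s * dt c d a + t * dt c d b = 0 := by
  obtain ⟨s, t, hs, ht, hst, e⟩ := h
  obtain ⟨s', t', -, -, hst', e'⟩ := h'
  refine ⟨s, t, hs, ht, hst, e.symm, ?_⟩
  have e1 := congrArg Prod.fst (e.trans e'.symm)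
  have e2 := congrArg Prod.snd (e.trans e'.symm)
  simp only [Prod.fst_add, Prod.snd_add, Prod.smul_fst, Prod.smul_snd, smul_eq_mul] at e1 e2
  obtain rfl : t = 1 - s := by linarith
  obtain rfl : s' = 1 - t' := by linarith
  unfold dt
  linear_combination (d.1 - c.1) * e2 - (d.2 - c.2) * e1

theorem dt_far {c d a b z : ℝ × ℝ} (h : z ∈ segment ℝ a b) (h' : z ∈ segment ℝ c d)
    (hp : 0 < dt c d a * dt c d b) : False := by
  obtain ⟨s, t, hs, ht, hst, -, e⟩ := dt_seg h h'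
  have h1 : 0 < dt c d a * dt c d a := mul_self_pos.2 (left_ne_zero_of_mul hp.ne')
  have h2 : s * (dt c d a * dt c d a) + t * (dt c d a * dt c d b) = 0 := by
    linear_combination dt c d a * e
  have h3 := mul_nonneg hs h1.le
  have h4 := mul_nonneg ht hp.le
  have h5 : s = 0 := (mul_eq_zero.1 (by linarith : s * (dt c d a * dt c d a) = 0)).resolve_right
    h1.ne'
  have h6 : t = 0 := (mul_eq_zero.1 (by linarith : t * (dt c d a * dt c d b) = 0)).resolve_right
    hp.ne'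
  linarith

theorem dt_end {c d a b z : ℝ × ℝ} (h : z ∈ segment ℝ a b) (h' : z ∈ segment ℝ c d)
    (ha : a = c ∨ a = d) (hb : dt c d b ≠ 0) : z = a := by
  obtain ⟨s, t, -, -, hst, rfl, e⟩ := dt_seg h h'
  have h0 : dt c d a = 0 := by
    rcases ha with rfl | rfl <;> simp only [dt] <;> ring
  rw [h0, mul_zero, zero_add] at e
  obtain rfl : t = 0 := (mul_eq_zero.1 e).resolve_right hb
  obtain rfl : s = 1 := by linarith
  simp

/-- The test for one pair of edges. -/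
def okPair (P : Fin n → ℤ × ℤ) (e f : Fin n × Fin n) : Prop :=
  e = f ∨ 0 < dt (P f.1) (P f.2) (P e.1) * dt (P f.1) (P f.2) (P e.2) ∨
    0 < dt (P e.1) (P e.2) (P f.1) * dt (P e.1) (P e.2) (P f.2) ∨
    ((e.1 = f.1 ∨ e.1 = f.2) ∧ dt (P f.1) (P f.2) (P e.2) ≠ 0) ∨
    ((e.2 = f.1 ∨ e.2 = f.2) ∧ dt (P f.1) (P f.2) (P e.1) ≠ 0)

instance decPair (P : Fin n → ℤ × ℤ) (e f : Fin n × Fin n) : Decidable (okPair P e f) := by
  unfold okPair
  infer_instance

theorem plane_GP {pr : Prog n} (P : Fin n → ℤ × ℤ) (hP : Function.Injective P)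
    (h : ∀ e ∈ EP pr, ∀ f ∈ EP pr, okPair P e f) :
    ∃ p : Fin n → ℝ × ℝ, Function.Injective p ∧ ∀ u v x y, (GP pr).Adj u v → (GP pr).Adj x y →
      s(u, v) ≠ s(x, y) →
        segment ℝ (p u) (p v) ∩ segment ℝ (p x) (p y) ⊆ p '' ({u, v} ∩ {x, y}) := by
  let p : Fin n → ℝ × ℝ := fun v => (((P v).1 : ℝ), ((P v).2 : ℝ))
  have hd : ∀ a b c, dt (p a) (p b) (p c) = ((dt (P a) (P b) (P c) : ℤ) : ℝ) := fun a b c => by
    simp [dt, p]
  have key : ∀ u v x y, (u, v) ∈ EP pr → (x, y) ∈ EP pr → s(u, v) ≠ s(x, y) →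
      segment ℝ (p u) (p v) ∩ segment ℝ (p x) (p y) ⊆ p '' ({u, v} ∩ {x, y}) := by
    rintro u v x y h1 h2 hne z ⟨hz, hz'⟩
    rcases h _ h1 _ h2 with e | e | e | ⟨e, e'⟩ | ⟨e, e'⟩
    · obtain ⟨rfl, rfl⟩ := Prod.ext_iff.1 e
      exact absurd rfl hne
    · exact (dt_far hz hz' (by rw [hd, hd]; exact_mod_cast e)).elim
    · exact (dt_far hz' hz (by rw [hd, hd]; exact_mod_cast e)).elim
    · exact ⟨u, ⟨Or.inl rfl, e⟩, (dt_end hz hz' (e.imp (congrArg p) (congrArg p))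
        (by rw [hd]; exact_mod_cast e')).symm⟩
    · exact ⟨v, ⟨Or.inr rfl, e⟩, (dt_end (segment_symm ℝ (p u) (p v) ▸ hz) hz'
        (e.imp (congrArg p) (congrArg p)) (by rw [hd]; exact_mod_cast e')).symm⟩
  refine ⟨p, fun a b hab => hP (Prod.ext ?_ ?_), fun u v x y h1 h2 hne => ?_⟩
  · exact Int.cast_injective (α := ℝ) (congrArg Prod.fst hab)
  · exact Int.cast_injective (α := ℝ) (congrArg Prod.snd hab)
  rcases ((GP_adj pr _ _).1 h1).1 with h1 | h1 <;> rcases ((GP_adj pr _ _).1 h2).1 with h2 | h2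
  · exact key u v x y h1 h2 hne
  · rw [segment_symm ℝ (p x), Set.pair_comm x]
    exact key u v y x h1 h2 (by rwa [Sym2.eq_swap (a := y)])
  · rw [segment_symm ℝ (p u), Set.pair_comm u]
    exact key v u x y h1 h2 (by rwa [Sym2.eq_swap (a := v)])
  · rw [segment_symm ℝ (p u), Set.pair_comm u, segment_symm ℝ (p x), Set.pair_comm x]
    exact key v u y x h1 h2 (by rwa [Sym2.eq_swap (a := v), Sym2.eq_swap (a := y)])

end plane

end Pool.Agent.P.MP_a73859_co
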